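import Pool.Agent.V11311.MT.B

/-! The law of the meeting times, part C: the time bound in closed form. -/

set_option autoImplicit false

namespace Pool.Agent.V11311.MT

open Pool.Agent.H499R2.ND (sg kpp sgk_eq log43 mu_pos')

open Pool.Agent.H319R2.Lln (mu)

theorem kpp_eq : kpp = Real.log 6 / Real.log 3 := by
  have h3 := Real.log_pos (by norm_num : (1 : ℝ) < 3)
  have e6 : Real.log 6 = Real.log 2 + Real.log 3 := by
    rw [← Real.log_mul (by norm_num) (by norm_num)]; norm_num
  unfold Pool.Agent.H499R2.ND.kpp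
  rw [e6]
  field_simp
  ring

theorem sg_eq (L : ℝ) (hL : 0 ≤ L) :
    Real.log 3 * Real.sqrt (2 * L / Real.log (4 / 3) ^ 3) = sg * Real.sqrt L := by
  have h := sgk_eq L hL
  have h3 := Real.log_pos (by norm_num : (1 : ℝ) < 3)
  have h6 := Real.log_pos (by norm_num : (1 : ℝ) < 6)
  rw [kpp_eq] at h
  have h1 : Real.log 6 * (Real.log 3 * Real.sqrt (2 * L / Real.log (4 / 3) ^ 3))
      = Real.log 6 * (sg * Real.sqrt L) := by
    have h2 : Real.log 6 * (Real.log 3 * Real.sqrt (2 * L / Real.log (4 / 3) ^ 3))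
        = Real.log 3 * (Real.log 6 * Real.sqrt (2 * L / Real.log (4 / 3) ^ 3)) := by ring
    rw [h2, h]
    field_simp
  exact mul_left_cancel₀ h6.ne' h1

/-- the time bound for the shortcut map, in closed form -/
theorem tb_eq (x : ℝ) (n : ℕ) (hn : 1 ≤ n) : tb x n
    = 2 / Real.log (4 / 3) * Real.log n + x * (Real.log 3 * Real.sqrt (2 * Real.log n / Real.log (4 / 3) ^ 3)) := by
  unfold tb
  rw [sg_eq _ (Real.log_nonneg (by exact_mod_cast hn)), log43]
  have := mu_pos'
  field_simp

end Pool.Agent.V11311.MT
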