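import Pool.Agent.V11311.DV.H
import Pool.Agent.H499R2.LT.E4
import Pool.Agent.H499R2.LT.H4
import Pool.Agent.H499R2.CL.O4

/-! The law of the meeting times, part A: first hitting times. -/

set_option autoImplicit false

namespace Pool.Agent.V11311.MT

open Finset Filter Topology Pool.Agent.V11311.PD Pool.Agent.V11311.PL Pool.Agent.V11311.FP Pool.Agent.V11311.DV

open Pool.Agent.Helper894.Collatz (T od T_even T_odd)

open Pool.Agent.H377R2 (iter_pos)

open Pool.Agent.H319R2.Lln (mu)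

open Pool.Agent.H499R2.ND (sg Phi Td Dn Phi_continuous)

open Pool.Agent.H499R2.LT (Hit PF evC cltC hd_exists dn_PF)

/-- the time bound -/
noncomputable def tb (x : ℝ) (n : ℕ) : ℝ := Real.log n / mu + x * sg * Real.sqrt (Real.log n)

/-- the trajectory of `n` visits `a` for the first time at time `j` -/
def Hx (a n j : ℕ) : Prop := T^[j] n = a ∧ ∀ i < j, T^[i] n ≠ a

theorem Hx.unique {a n j j' : ℕ} (h : Hx a n j) (h' : Hx a n j') : j = j' := by
  rcases lt_trichotomy j j' with h1 | h1 | h1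
  · exact absurd h.1 (h'.2 j h1)
  · exact h1
  · exact absurd h'.1 (h.2 j' h1)

theorem Hx.vis {a n j : ℕ} (h : Hx a n j) : Vis n a := ⟨j, h.1⟩

theorem exists_hx {a n : ℕ} (h : Vis n a) : ∃ j, Hx a n j := by
  classical
  have hex : ∃ j : ℕ, T^[j] n = a := h
  exact ⟨Nat.find hex, Nat.find_spec hex, fun i hi => Nat.find_min hex hi⟩

theorem Td_nat (n : ℕ) : Td 1 (n : ℤ) = ((T n : ℕ) : ℤ) := by
  unfold Pool.Agent.H499R2.ND.Td Pool.Agent.Helper894.Collatz.T
  split_ifs <;> omega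

theorem Td_cast (j n : ℕ) : (Td 1)^[j] (n : ℤ) = ((T^[j] n : ℕ) : ℤ) := by
  induction j with
  | zero => rfl
  | succ j ih => rw [Function.iterate_succ_apply', Function.iterate_succ_apply', ih, Td_nat]

theorem hit_iff (a n j : ℕ) : Hit 1 {(a : ℤ)} (a : ℤ) (n : ℤ) j ↔ Hx a n j := by
  unfold Pool.Agent.H499R2.LT.Hit Hx
  simp only [Td_cast, mem_singleton, Nat.cast_inj, true_and]

theorem cnt_cN (P : ℕ → Prop) (N : ℕ) : Pool.Agent.H499R2.ND.cnt P N = (cN P N : ℝ) := by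
  classical
  unfold Pool.Agent.H499R2.ND.cnt cN
  rw [← Set.ncard_coe_finset]
  congr 2
  ext n
  rw [mem_coe, mem_filter, mem_Icc]
  constructor
  · rintro ⟨h1, h2, h3⟩; exact ⟨⟨h1, h2⟩, h3⟩
  · rintro ⟨⟨h1, h2⟩, h3⟩; exact ⟨h1, h2, h3⟩

theorem hasD_of_dn {P : ℕ → Prop} {l : ℝ} (h : Dn P l) : HasD P l := by
  unfold Pool.Agent.H499R2.ND.Dn at h
  unfold HasD
  refine h.congr fun N => ?_
  rw [cnt_cN]

/-- `a` is visited for the first time at the time `≤ tb x n` -/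
def Ev (a : ℕ) (x : ℝ) (n : ℕ) : Prop := ∃ j : ℕ, (j : ℝ) ≤ tb x n ∧ Hx a n j

/-- ... at a time `≤ tb x n - 1` -/
def Es (a : ℕ) (x : ℝ) (n : ℕ) : Prop := ∃ j : ℕ, (j : ℝ) + 1 ≤ tb x n ∧ Hx a n j

variable {D : ℕ → ℝ}

theorem Ev_dens (hD : IsD D) (a : ℕ) (x : ℝ) : HasD (Ev a x) (D a * Phi x) := by
  obtain ⟨l, hl⟩ := hd_exists (d := 1) odd_one (by norm_num) {(a : ℤ)} (a : ℤ)
  have h1 : HasD (fun n => Vis n a) l := by
    refine HasD.congr (hasD_of_dn (dn_PF hl)) fun n _ => ?_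
    unfold Pool.Agent.H499R2.LT.PF
    rw [Set.mem_ofPred_eq]
    constructor
    · rintro ⟨j, hj⟩
      exact ((hit_iff a n j).1 hj).vis
    · intro h
      obtain ⟨j, hj⟩ := exists_hx h
      exact ⟨j, (hit_iff a n j).2 hj⟩
  have h2 : l = D a := tendsto_nhds_unique h1 (IsD.hasD hD a)
  have h3 := cltC (d := 1) odd_one (by norm_num) {(a : ℤ)} (a : ℤ) hl (m := 1) le_rfl 0 0 x
  rw [Nat.cast_one, one_pow, div_one, h2] at h3
  refine HasD.congr (hasD_of_dn h3) fun n _ => ?_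
  unfold Pool.Agent.H499R2.LT.evC Ev tb
  refine exists_congr fun j => ?_
  rw [hit_iff]
  constructor
  · rintro ⟨h4, h5, _⟩; exact ⟨h4, h5⟩
  · rintro ⟨h4, h5⟩; exact ⟨h4, h5, Int.modEq_one, Int.modEq_one⟩

theorem sg_pos : 0 < sg := by
  have hmu : 0 < mu := Pool.Agent.H499R2.ND.mu_pos'
  unfold Pool.Agent.H499R2.ND.sg Pool.Agent.H499R2.ND.c0
  have h3 := Real.log_pos (by norm_num : (1 : ℝ) < 3)
  have := Real.sqrt_pos.2 hmu
  positivity

theorem tb_gap (x θ : ℝ) (hθ : 0 < θ) : ∃ n0 : ℕ, ∀ n : ℕ, n0 ≤ n → tb (x - θ) n + 1 ≤ tb x n := by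
  have h1 : Tendsto (fun n : ℕ => θ * sg * Real.sqrt (Real.log n)) atTop atTop := by
    apply Tendsto.const_mul_atTop (mul_pos hθ sg_pos)
    exact Real.tendsto_sqrt_atTop.comp (Real.tendsto_log_atTop.comp tendsto_natCast_atTop_atTop)
  obtain ⟨n0, hn0⟩ := eventually_atTop.1 (h1.eventually (eventually_ge_atTop 1))
  refine ⟨n0, fun n hn => ?_⟩
  have h2 := hn0 n hn
  unfold tb
  have e : (x - θ) * sg * Real.sqrt (Real.log n) = x * sg * Real.sqrt (Real.log n) - θ * sg * Real.sqrt (Real.log n) := by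
    ring
  rw [e]
  linarith

theorem Es_dens (hD : IsD D) (a : ℕ) (x : ℝ) : HasD (Es a x) (D a * Phi x) := by
  classical
  unfold HasD
  apply tendsto_order.2
  refine ⟨fun c hc => ?_, fun c hc => ?_⟩
  · have hcont : Tendsto (fun θ : ℝ => D a * Phi (x - θ)) (𝓝 0) (𝓝 (D a * Phi x)) := by
      have h1 : Continuous fun θ : ℝ => D a * Phi (x - θ) :=
        continuous_const.mul (Phi_continuous.comp (continuous_const.sub continuous_id))
      have h2 := h1.tendsto 0
      rwa [sub_zero] at h2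
    have h1 : ∀ᶠ θ : ℝ in 𝓝[>] 0, c < D a * Phi (x - θ) :=
      (hcont.eventually (lt_mem_nhds hc)).filter_mono nhdsWithin_le_nhds
    obtain ⟨θ, hcθ, hθ⟩ := (h1.and self_mem_nhdsWithin).exists
    have hθ0 : 0 < θ := hθ
    obtain ⟨n0, hn0⟩ := tb_gap x θ hθ0
    have h2 : Tendsto (fun N : ℕ => (cN (Ev a (x - θ)) N : ℝ) / N - n0 * (1 / (N : ℝ))) atTop
        (𝓝 (D a * Phi (x - θ) - n0 * 0)) :=
      (Ev_dens hD a (x - θ)).sub ((tendsto_one_div_atTop_nhds_zero_nat (𝕜 := ℝ)).const_mul _)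
    rw [mul_zero, sub_zero] at h2
    filter_upwards [h2.eventually (lt_mem_nhds hcθ), eventually_gt_atTop 0] with N hN hN0
    have hN1 : (0 : ℝ) < N := by exact_mod_cast hN0
    refine hN.trans_le ?_
    rw [mul_one_div, ← sub_div]
    apply div_le_div_of_nonneg_right _ hN1.le
    have h3 : cN (Ev a (x - θ)) N ≤ n0 + cN (Es a x) N := by
      rw [← fl_card, ← fl_card]
      have h4 : fl (Ev a (x - θ)) N ⊆ range n0 ∪ fl (Es a x) N := by
        intro n hn
        rw [mem_fl] at hn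
        rw [mem_union, mem_range, mem_fl]
        rcases lt_or_ge n n0 with h5 | h5
        · exact Or.inl h5
        · right
          refine ⟨hn.1, ?_⟩
          obtain ⟨j, hj, hj'⟩ := hn.2
          exact ⟨j, by linarith [hn0 n h5], hj'⟩
      refine (card_le_card h4).trans ((card_union_le _ _).trans ?_)
      rw [card_range]
    have h4 : (cN (Ev a (x - θ)) N : ℝ) ≤ n0 + cN (Es a x) N := by exact_mod_cast h3
    linarith
  · filter_upwards [(Ev_dens hD a x).eventually (gt_mem_nhds hc)] with N hN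
    refine lt_of_le_of_lt ?_ hN
    apply div_le_div_of_nonneg_right _ (Nat.cast_nonneg N)
    have h3 : cN (Es a x) N ≤ cN (Ev a x) N := by
      apply cN_mono
      rintro n _ ⟨j, hj, hj'⟩
      exact ⟨j, by linarith, hj'⟩
    exact_mod_cast h3

end Pool.Agent.V11311.MT
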