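import Pool.Agent.V11311.MT.A

/-! The law of the meeting times, part B: counting. -/

set_option autoImplicit false

namespace Pool.Agent.V11311.MT

open Finset Filter Topology Pool.Agent.V11311.PD Pool.Agent.V11311.PL Pool.Agent.V11311.FP Pool.Agent.V11311.DV

open Pool.Agent.Helper894.Collatz (T od T_even T_odd)

open Pool.Agent.H377R2 (iter_pos)

open Pool.Agent.H319R2.Lln (mu)

open Pool.Agent.H499R2.ND (sg Phi Phi_continuous)

/-- the first common term is `m`, at the time `i` of `a`; `b` is there for the first time at the time `j` -/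
def FT (a b m i j : ℕ) : Prop := T^[i] a = m ∧ (∀ i' < i, ¬ Vis b (T^[i'] a)) ∧ Hx m b j

theorem FT.fst {a b m i j : ℕ} (h : FT a b m i j) : Fst a b m := ⟨i, h.1, h.2.2.vis, h.2.1⟩

theorem ft_iff (a b m i j : ℕ) : FT a b m i j ↔ (i = 0 ∧ a = m ∧ Hx m b j) ∨
    ∃ e, T e = m ∧ ¬ Vis m e ∧ ∃ k, i = k + 1 ∧ Hx e a k ∧ Hx m b j ∧ ¬ Vis b e := by
  constructor
  · rintro ⟨h1, h2, h3⟩
    cases i with
    | zero => exact Or.inl ⟨rfl, h1, h3⟩
    | succ k =>
      right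
      have hb : ¬ Vis b (T^[k] a) := h2 k (Nat.lt_succ_self k)
      have he : T (T^[k] a) = m := by rw [← h1, Function.iterate_succ_apply']
      refine ⟨T^[k] a, he, fun h => hb (vis_trans h3.vis h), k, rfl, ⟨rfl, fun i' hi' h => ?_⟩, h3, hb⟩
      rcases Nat.eq_or_lt_of_le (Nat.succ_le_of_lt hi') with h4 | h4
      · -- i' + 1 = k
        apply h2 k (Nat.lt_succ_self k)
        have h5 : T^[k] a = m := by
          rw [← h4, Function.iterate_succ_apply', h, he]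
        rw [h5]
        exact h3.vis
      · apply h2 (i' + 1) (by omega)
        rw [Function.iterate_succ_apply', h, he]
        exact h3.vis
  · rintro (⟨rfl, rfl, h3⟩ | ⟨e, he, hne, k, rfl, hk, h3, hb⟩)
    · exact ⟨rfl, fun i' hi' => absurd hi' (Nat.not_lt_zero i'), h3⟩
    · refine ⟨by rw [Function.iterate_succ_apply', hk.1, he], fun i' hi' hv => hb ?_, h3⟩
      refine vis_trans hv ⟨k - i', ?_⟩
      rw [← Function.iterate_add_apply, Nat.sub_add_cancel (by omega), hk.1]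

/-- times and the first common term -/
def FX (m : ℕ) (x y : ℝ) (N : ℕ) : Set (Fin 2 → ℕ) := {v | (∀ i, 0 < v i ∧ v i ≤ N) ∧
  ∃ i j : ℕ, (i : ℝ) ≤ tb x (v 0) ∧ (j : ℝ) ≤ tb y (v 1) ∧ FT (v 0) (v 1) m i j}

/-- the pairs which meet within the given times -/
def TX (x y : ℝ) (N : ℕ) : Set (Fin 2 → ℕ) := {v | (∀ i, 0 < v i ∧ v i ≤ N) ∧
  ∃ m i j : ℕ, (i : ℝ) ≤ tb x (v 0) ∧ (j : ℝ) ≤ tb y (v 1) ∧ FT (v 0) (v 1) m i j}

theorem FX_fin (m : ℕ) (x y : ℝ) (N : ℕ) : (FX m x y N).Finite := tup_fin fun _ hv => hv.1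

theorem TX_fin (x y : ℝ) (N : ℕ) : (TX x y N).Finite := tup_fin fun _ hv => hv.1

/-- `b` visits `m` in time, but not `e` -/
def Ge (m e : ℕ) (y : ℝ) (b : ℕ) : Prop := Ev m y b ∧ ¬ Vis b e

noncomputable def bt (m : ℕ) (x y : ℝ) (N e : ℕ) : Finset (Fin 2 → ℕ) :=
  box1 0 (fl (Es e x) N) (fl (Ge m e y) N) ∅

theorem mem_bt {m N e : ℕ} {x y : ℝ} {v : Fin 2 → ℕ} :
    v ∈ bt m x y N e ↔ (∀ i, 0 < v i ∧ v i ≤ N) ∧ Es e x (v 0) ∧ Ge m e y (v 1) := by
  unfold bt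
  rw [mem_box1, mem_fl, mem_fl, Fin.forall_fin_two]
  constructor
  · rintro ⟨⟨h1, h2⟩, ⟨h3, h4⟩, _⟩
    exact ⟨⟨h1, h3⟩, h2, h4⟩
  · rintro ⟨⟨h1, h3⟩, h2, h4⟩
    exact ⟨⟨h1, h2⟩, ⟨h3, h4⟩, fun i => i.elim0⟩

theorem bt_card (m : ℕ) (x y : ℝ) (N e : ℕ) : (bt m x y N e).card = cN (Es e x) N * cN (Ge m e y) N := by
  unfold bt
  rw [box1_card, fl_card, fl_card, pow_zero, mul_one]

open scoped Classical in
/-- the preimages which are not on the cycle of `m` -/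
noncomputable def pr (m : ℕ) : Finset ℕ := (pre m).filter fun e => ¬ Vis m e

theorem mem_pr {m e : ℕ} : e ∈ pr m ↔ T e = m ∧ ¬ Vis m e := by
  classical
  unfold pr
  rw [mem_filter, mem_pre]

theorem ft_of_bt {m N e : ℕ} {x y : ℝ} {v : Fin 2 → ℕ} (he : e ∈ pr m) (hv : v ∈ bt m x y N e) : v ∈ FX m x y N := by
  obtain ⟨h1, ⟨k, hk, hk'⟩, ⟨j, hj, hj'⟩, hb⟩ := mem_bt.1 hv
  obtain ⟨he1, he2⟩ := mem_pr.1 he
  refine ⟨h1, k + 1, j, by push_cast; exact hk, hj, (ft_iff _ _ _ _ _).2 (Or.inr ⟨e, he1, he2, k, rfl, hk', hj', hb⟩)⟩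

theorem FX_low (m : ℕ) (x y : ℝ) (N : ℕ) :
    ∑ e ∈ pr m, cN (Es e x) N * cN (Ge m e y) N ≤ (FX m x y N).ncard := by
  classical
  rw [sum_congr rfl fun e _ => (bt_card m x y N e).symm, ← card_biUnion, ← Set.ncard_coe_finset]
  · apply Set.ncard_le_ncard _ (FX_fin m x y N)
    intro v hv
    rw [mem_coe, mem_biUnion] at hv
    obtain ⟨e, he, hv⟩ := hv
    exact ft_of_bt he hv
  · intro e he e' he' hne
    rw [Function.onFun, disjoint_left]
    intro v h1 h2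
    obtain ⟨_, ⟨k, _, hk⟩, ⟨j, _, hj⟩, hb⟩ := mem_bt.1 h1
    obtain ⟨_, ⟨k', _, hk'⟩, _, hb'⟩ := mem_bt.1 h2
    rcases two_pre (mem_pr.1 he).1 (mem_pr.1 he').1 hne hk.vis hk'.vis with h | h
    · exact (mem_pr.1 he).2 h
    · exact (mem_pr.1 he').2 h

theorem FX_upp (m : ℕ) (x y : ℝ) (N : ℕ) : (FX m x y N).ncard ≤
    N + ∑ e ∈ pr m, cN (Es e x) N * cN (Ge m e y) N := by
  classical
  have hsub : FX m x y N ⊆ ((box1 0 {m} (Icc 1 N) ∅ ∪ (pr m).biUnion fun e => bt m x y N e :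
      Finset (Fin 2 → ℕ)) : Set (Fin 2 → ℕ)) := by
    rintro v ⟨hv, i, j, hi, hj, hf⟩
    rw [mem_coe, mem_union, mem_biUnion]
    rcases (ft_iff _ _ _ _ _).1 hf with ⟨_, h1, _⟩ | ⟨e, h1, h2, k, rfl, h3, h4, h5⟩
    · left
      rw [mem_box1, mem_singleton, mem_Icc]
      exact ⟨h1, ⟨(hv 1).1, (hv 1).2⟩, fun i => i.elim0⟩
    · right
      refine ⟨e, mem_pr.2 ⟨h1, h2⟩, mem_bt.2 ⟨hv, ⟨k, ?_, h3⟩, ⟨j, hj, h4⟩, h5⟩⟩
      push_cast at hi
      exact hi
  have h1 := Set.ncard_le_ncard hsub (Finset.finite_toSet _)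
  rw [Set.ncard_coe_finset] at h1
  refine h1.trans ((card_union_le _ _).trans (Nat.add_le_add ?_ ?_))
  · rw [box1_card, card_singleton, Nat.card_Icc]
    simp
  · refine card_biUnion_le.trans (sum_le_sum fun e _ => ?_)
    rw [bt_card]

variable {D : ℕ → ℝ}

theorem Ge_dens (hD : IsD D) {m e : ℕ} (he : e ∈ pr m) (y : ℝ) : HasD (Ge m e y) (D m * Phi y - D e * Phi y) := by
  classical
  obtain ⟨he1, he2⟩ := mem_pr.1 he
  have hkey : ∀ b k : ℕ, Hx e b k → Hx m b (k + 1) := by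
    intro b k hk
    refine ⟨by rw [Function.iterate_succ_apply', hk.1, he1], fun i hi h => he2 ⟨k - i, ?_⟩⟩
    rw [← h, ← Function.iterate_add_apply, Nat.sub_add_cancel (by omega), hk.1]
  have h1 : Tendsto (fun N : ℕ => (cN (Ev m y) N : ℝ) / N - (cN (Es e y) N : ℝ) / N) atTop
      (𝓝 (D m * Phi y - D e * Phi y)) := (Ev_dens hD m y).sub (Es_dens hD e y)
  refine h1.congr fun N => ?_
  rw [← sub_div]
  congr 1
  have h2 : cN (Es e y) N + cN (Ge m e y) N = cN (Ev m y) N := by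
    rw [← fl_card, ← fl_card, ← fl_card, ← card_union_of_disjoint]
    · congr 1
      ext b
      rw [mem_union, mem_fl, mem_fl, mem_fl]
      constructor
      · rintro (⟨h1, k, hk, hk'⟩ | ⟨h1, h2, _⟩)
        · exact ⟨h1, k + 1, by push_cast; exact hk, hkey b k hk'⟩
        · exact ⟨h1, h2⟩
      · rintro ⟨h1, h2⟩
        by_cases h3 : Vis b e
        · left
          refine ⟨h1, ?_⟩
          obtain ⟨k, hk⟩ := exists_hx h3
          obtain ⟨j, hj, hj'⟩ := h2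
          have h4 := (hkey b k hk).unique hj'
          refine ⟨k, ?_, hk⟩
          rw [← h4] at hj
          push_cast at hj
          exact hj
        · exact Or.inr ⟨h1, h2, h3⟩
    · rw [disjoint_left]
      intro b h3 h4
      obtain ⟨k, _, hk⟩ := (mem_fl.1 h3).2
      exact (mem_fl.1 h4).2.2 hk.vis
  have h3 : (cN (Es e y) N : ℝ) + (cN (Ge m e y) N : ℝ) = cN (Ev m y) N := by exact_mod_cast h2
  linarith

theorem pr_sum (hD : IsD D) (m : ℕ) (x y : ℝ) :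
    ∑ e ∈ pr m, (D e * Phi x) * (D m * Phi y - D e * Phi y) = pm D m * Phi x * Phi y := by
  classical
  have h1 : ∑ e ∈ pr m, D e * (D m - D e) = pm D m := by
    unfold pr pm
    rw [sum_filter]
    apply sum_congr rfl
    intro e he
    by_cases h : Vis m e
    · rw [if_neg (fun h' => h' h)]
      have h2 : D m = D e := by
        apply tendsto_nhds_unique (IsD.hasD hD m)
        refine HasD.congr (IsD.hasD hD e) fun n _ => ⟨fun h3 => ?_, fun h3 => vis_trans h3 h⟩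
        rw [← mem_pre.1 he]
        exact Vis.step h3
      rw [h2, sub_self, mul_zero]
    · rw [if_pos h]
  rw [← h1, sum_mul, sum_mul]
  apply sum_congr rfl
  intro e _
  ring

theorem FX_lim (hD : IsD D) (m : ℕ) (x y : ℝ) :
    Tendsto (fun N : ℕ => ((FX m x y N).ncard : ℝ) / (N : ℝ) ^ 2) atTop (𝓝 (pm D m * Phi x * Phi y)) := by
  rw [← pr_sum hD]
  set L := ∑ e ∈ pr m, (D e * Phi x) * (D m * Phi y - D e * Phi y) with hL
  have h1 : Tendsto (fun N : ℕ => ∑ e ∈ pr m, ((cN (Es e x) N : ℝ) / N) * ((cN (Ge m e y) N : ℝ) / N)) atTop (𝓝 L) :=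
    tendsto_finsetSum _ fun e he => (Es_dens hD e x).mul (Ge_dens hD he y)
  have h2 : Tendsto (fun N : ℕ => (1 : ℝ) / (N : ℝ) + ∑ e ∈ pr m, ((cN (Es e x) N : ℝ) / N)
      * ((cN (Ge m e y) N : ℝ) / N)) atTop (𝓝 L) := by
    have h4 := (tendsto_one_div_atTop_nhds_zero_nat (𝕜 := ℝ)).add h1
    rwa [zero_add] at h4
  have e1 : ∀ N : ℕ, 0 < N → ∑ e ∈ pr m, ((cN (Es e x) N : ℝ) / N) * ((cN (Ge m e y) N : ℝ) / N)
      = ((∑ e ∈ pr m, cN (Es e x) N * cN (Ge m e y) N : ℕ) : ℝ) / (N : ℝ) ^ 2 := by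
    intro N hN
    push_cast
    rw [sum_div]
    apply sum_congr rfl
    intro e _
    rw [div_mul_div_comm, sq]
  apply tendsto_of_tendsto_of_tendsto_of_le_of_le' h1 h2
  · filter_upwards [eventually_gt_atTop 0] with N hN
    rw [e1 N hN]
    apply div_le_div_of_nonneg_right _ (by positivity)
    exact_mod_cast FX_low m x y N
  · filter_upwards [eventually_gt_atTop 0] with N hN
    have hN0 : (0 : ℝ) < N := by exact_mod_cast hN
    rw [e1 N hN]
    have h3 : (1 : ℝ) / N = (N : ℝ) / (N : ℝ) ^ 2 := by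
      rw [sq, div_mul_cancel_right₀ hN0.ne', one_div]
    rw [h3, ← add_div]
    apply div_le_div_of_nonneg_right _ (by positivity)
    exact_mod_cast FX_upp m x y N

theorem FX_dis (M : Finset ℕ) (x y : ℝ) (N : ℕ) : ∑ m ∈ M, (FX m x y N).ncard ≤ (TX x y N).ncard := by
  classical
  have h1 : ∀ m, (FX m x y N).ncard = (FX_fin m x y N).toFinset.card := fun m => Set.ncard_eq_toFinset_card _ _
  rw [sum_congr rfl fun m _ => h1 m, ← card_biUnion, ← Set.ncard_coe_finset]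
  · apply Set.ncard_le_ncard _ (TX_fin x y N)
    intro v hv
    rw [mem_coe, mem_biUnion] at hv
    obtain ⟨m, _, hv⟩ := hv
    rw [Set.Finite.mem_toFinset] at hv
    obtain ⟨h2, i, j, h3⟩ := hv
    exact ⟨h2, m, i, j, h3⟩
  · intro m _ m' _ hne
    rw [Function.onFun, disjoint_left]
    intro v h1 h2
    rw [Set.Finite.mem_toFinset] at h1 h2
    obtain ⟨_, _, _, _, _, h3⟩ := h1
    obtain ⟨_, _, _, _, _, h4⟩ := h2
    exact hne (h3.fst.unique h4.fst)

theorem FX_cover (X : ℕ) (x y : ℝ) (N : ℕ) :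
    (TX x y N).ncard ≤ ∑ m ∈ range (X + 1), (FX m x y N).ncard + (TL X N).ncard := by
  classical
  have hsub : TX x y N ⊆ ((range (X + 1)).biUnion fun m => (FX_fin m x y N).toFinset) ∪ (TL X N) := by
    rintro v ⟨hv, m, i, j, hi, hj, hf⟩
    rw [Set.mem_union, mem_coe, mem_biUnion]
    rcases le_or_gt m X with h | h
    · left
      exact ⟨m, mem_range.2 (by omega), (Set.Finite.mem_toFinset _).2 ⟨hv, i, j, hi, hj, hf⟩⟩
    · right
      exact ⟨hv, m, h, hf.fst⟩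
  refine (Set.ncard_le_ncard hsub ((Finset.finite_toSet _).union (TL_fin X N))).trans ((Set.ncard_union_le _ _).trans
    (Nat.add_le_add_right ?_ _))
  rw [Set.ncard_coe_finset]
  refine card_biUnion_le.trans (sum_le_sum fun m _ => ?_)
  rw [Set.ncard_eq_toFinset_card _ (FX_fin m x y N)]

theorem Phi_nonneg (x : ℝ) : 0 ≤ Phi x := by
  unfold Pool.Agent.H499R2.ND.Phi
  exact MeasureTheory.measureReal_nonneg

theorem Phi_le_one (x : ℝ) : Phi x ≤ 1 := by
  unfold Pool.Agent.H499R2.ND.Phi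
  exact MeasureTheory.measureReal_le_one

/-- **the law of the meeting times** -/
theorem TX_lim {δ : ℕ → ℝ} (h : IsC δ) (hD : IsD D) (x y : ℝ) :
    Tendsto (fun N : ℕ => ((TX x y N).ncard : ℝ) / (N : ℝ) ^ 2) atTop
      (𝓝 ((∑' r, W δ (fun _ => True) 2 r) * Phi x * Phi y)) := by
  classical
  set S := ∑' r, W δ (fun _ => True) 2 r with hS
  have hsum := pm_sum h hD
  rw [← hS] at hsum
  have hP : 0 ≤ Phi x * Phi y := mul_nonneg (Phi_nonneg x) (Phi_nonneg y)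
  have hP1 : Phi x * Phi y ≤ 1 := mul_le_one₀ (Phi_le_one x) (Phi_nonneg y) (Phi_le_one y)
  have hfin : ∀ M : Finset ℕ, Tendsto (fun N : ℕ => ∑ m ∈ M, ((FX m x y N).ncard : ℝ) / (N : ℝ) ^ 2) atTop
      (𝓝 ((∑ m ∈ M, pm D m) * Phi x * Phi y)) := by
    intro M
    have h1 := tendsto_finsetSum M fun m _ => FX_lim hD m x y
    rw [← sum_mul, ← sum_mul] at h1
    exact h1
  rw [Metric.tendsto_atTop']
  intro ε hε
  obtain ⟨X0, hX0⟩ := TL_tight (ε / 4) (by positivity)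
  -- enough terms of the sum
  have h1 := hsum.tendsto_sum_nat
  obtain ⟨K0, hK0⟩ := eventually_atTop.1 (h1.eventually (lt_mem_nhds (by linarith : S - ε / 4 < S)))
  set K := max K0 (X0 + 1) with hK
  have h2 := hK0 K (le_max_left _ _)
  have h3 : ∑ m ∈ range K, pm D m ≤ S := sum_le_hasSum _ (fun m _ => pm_nonneg hD m) hsum
  have h4 : |(∑ m ∈ range K, pm D m) * Phi x * Phi y - S * Phi x * Phi y| ≤ ε / 4 := by
    have e : (∑ m ∈ range K, pm D m) * Phi x * Phi y - S * Phi x * Phi y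
        = ((∑ m ∈ range K, pm D m) - S) * (Phi x * Phi y) := by ring
    rw [e, abs_mul, abs_of_nonneg hP, abs_of_nonpos (by linarith)]
    nlinarith
  have h5 := Metric.tendsto_atTop'.1 (hfin (range K)) (ε / 4) (by positivity)
  obtain ⟨N1, hN1⟩ := h5
  obtain ⟨N2, hN2⟩ := eventually_atTop.1 hX0
  refine ⟨max N1 N2, fun N hN => ?_⟩
  have h6 := hN1 N ((le_max_left _ _).trans_lt hN)
  have h7 := hN2 N ((le_max_right _ _).trans hN.le)
  rw [Real.dist_eq] at h6 ⊢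
  have hTL : ((TL (K - 1) N).ncard : ℝ) / (N : ℝ) ^ 2 ≤ ε / 4 := by
    refine le_trans (div_le_div_of_nonneg_right ?_ (by positivity)) h7
    have hsub : TL (K - 1) N ⊆ TL X0 N := by
      rintro v ⟨hv, m, hm, hf⟩
      refine ⟨hv, m, ?_, hf⟩
      have := le_max_right K0 (X0 + 1)
      omega
    exact_mod_cast Set.ncard_le_ncard hsub (TL_fin X0 N)
  have h8 : ∑ m ∈ range K, ((FX m x y N).ncard : ℝ) / (N : ℝ) ^ 2 ≤ ((TX x y N).ncard : ℝ) / (N : ℝ) ^ 2 := by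
    rw [← sum_div]
    apply div_le_div_of_nonneg_right _ (by positivity)
    exact_mod_cast FX_dis (range K) x y N
  have h9 : ((TX x y N).ncard : ℝ) / (N : ℝ) ^ 2 ≤ ∑ m ∈ range K, ((FX m x y N).ncard : ℝ) / (N : ℝ) ^ 2
      + ((TL (K - 1) N).ncard : ℝ) / (N : ℝ) ^ 2 := by
    rw [← sum_div, ← add_div]
    apply div_le_div_of_nonneg_right _ (by positivity)
    have h10 := FX_cover (K - 1) x y N
    rw [Nat.sub_add_cancel (by have := le_max_right K0 (X0 + 1); omega)] at h10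
    exact_mod_cast h10
  rw [abs_lt] at h6 ⊢
  rw [abs_le] at h4
  constructor <;> linarith [h6.1, h6.2, h4.1, h4.2]

end Pool.Agent.V11311.MT
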